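import Pool.Agent.Helper89.KN.Spec
import Pool.Agent.Helper89.KN.Base

open MeasureTheory Set Filter Topology
open scoped ENNReal

namespace KN

theorem measg_thm : S_MEASG := by
  classical
  intro α _ W D C C' E k hW hD hC hC' hE m
  have hpr : ∀ i : Fin m, Measurable (fun p : α × (Fin m → ℂ) => (p.1, p.2 i)) := fun i =>
    measurable_fst.prodMk ((measurable_pi_apply i).comp measurable_snd)
  have hWi : ∀ i : Fin m, MeasurableSet {p : α × (Fin m → ℂ) | p.2 i ∈ W p.1} := fun i =>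
    hpr i hW
  have hCi : ∀ i : Fin m, MeasurableSet {p : α × (Fin m → ℂ) | C p.1 (p.2 i)} := fun i =>
    hpr i hC
  have hCi' : ∀ i : Fin m, MeasurableSet {p : α × (Fin m → ℂ) | C' p.1 (p.2 i)} := fun i =>
    hpr i hC'
  have hE' : MeasurableSet {p : α × (Fin m → ℂ) | E p.1} := measurable_fst hE
  have hDij : ∀ i j : Fin m,
      MeasurableSet {p : α × (Fin m → ℂ) | p.2 j ∈ D p.1 (p.2 i) ∩ W p.1} := by
    intro i j
    have h1 : Measurable (fun p : α × (Fin m → ℂ) => ((p.1, p.2 i), p.2 j)) :=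
      (hpr i).prodMk ((measurable_pi_apply j).comp measurable_snd)
    exact (h1 hD).inter (hWi j)
  have hcnt : ∀ i : Fin m, MeasurableSet {p : α × (Fin m → ℂ) |
      k ≤ cnt (D p.1 (p.2 i)) (res (W p.1) (conf p.2))} := by
    intro i
    have h1 : Measurable (fun p : α × (Fin m → ℂ) =>
        ∑ j : Fin m, if p.2 j ∈ D p.1 (p.2 i) ∩ W p.1 then 1 else 0) := by
      refine Finset.measurable_sum _ fun j _ => ?_
      exact Measurable.ite (hDij i j) measurable_const measurable_const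
    have h2 : {p : α × (Fin m → ℂ) | k ≤ cnt (D p.1 (p.2 i)) (res (W p.1) (conf p.2))} =
        (fun p : α × (Fin m → ℂ) =>
          ∑ j : Fin m, if p.2 j ∈ D p.1 (p.2 i) ∩ W p.1 then 1 else 0) ⁻¹' (Set.Ici k) := by
      ext p
      simp only [mem_setOf_eq, mem_preimage, mem_Ici]
      rw [cnt_res, cnt_conf_eq_sum]
      have h3 : (∑ j : Fin m, @ite ℕ (p.2 j ∈ D p.1 (p.2 i) ∩ W p.1) (Classical.propDecidable _) 1 0) =
          ∑ j : Fin m, if p.2 j ∈ D p.1 (p.2 i) ∩ W p.1 then 1 else 0 := by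
        refine Finset.sum_congr rfl fun j _ => ?_
        by_cases hj : p.2 j ∈ D p.1 (p.2 i) ∩ W p.1
        · rw [if_pos hj, if_pos hj]
        · rw [if_neg hj, if_neg hj]
      rw [h3]
    rw [h2]
    exact h1 measurableSet_Ici
  have hset : {p : α × (Fin m → ℂ) | E p.1 ∧ (∀ z ∈ res (W p.1) (conf p.2), C p.1 z) ∧
      ∀ z ∈ res (W p.1) (conf p.2), C' p.1 z →
        k ≤ cnt (D p.1 z) (res (W p.1) (conf p.2))} =
      {p : α × (Fin m → ℂ) | E p.1} ∩
      ((⋂ i : Fin m, ({p : α × (Fin m → ℂ) | p.2 i ∈ W p.1}ᶜ ∪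
        {p : α × (Fin m → ℂ) | C p.1 (p.2 i)})) ∩
      (⋂ i : Fin m, ({p : α × (Fin m → ℂ) | p.2 i ∈ W p.1}ᶜ ∪
        ({p : α × (Fin m → ℂ) | C' p.1 (p.2 i)}ᶜ ∪
          {p : α × (Fin m → ℂ) | k ≤ cnt (D p.1 (p.2 i)) (res (W p.1) (conf p.2))})))) := by
    ext p
    simp only [mem_setOf_eq, mem_inter_iff, mem_iInter, mem_union, mem_compl_iff]
    refine and_congr_right fun _ => and_congr ?_ ?_
    · constructor
      · intro h i
        by_cases hi : p.2 i ∈ W p.1
        · exact Or.inr (h _ (mem_res.2 ⟨mem_conf.2 ⟨i, rfl⟩, hi⟩))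
        · exact Or.inl hi
      · intro h z hz
        obtain ⟨hz1, hz2⟩ := mem_res.1 hz
        obtain ⟨i, rfl⟩ := mem_conf.1 hz1
        exact (h i).resolve_left (fun hn => hn hz2)
    · constructor
      · intro h i
        by_cases hi : p.2 i ∈ W p.1
        · refine Or.inr ?_
          by_cases hc : C' p.1 (p.2 i)
          · exact Or.inr (h _ (mem_res.2 ⟨mem_conf.2 ⟨i, rfl⟩, hi⟩) hc)
          · exact Or.inl hc
        · exact Or.inl hi
      · intro h z hz hc
        obtain ⟨hz1, hz2⟩ := mem_res.1 hz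
        obtain ⟨i, rfl⟩ := mem_conf.1 hz1
        exact ((h i).resolve_left (fun hn => hn hz2)).resolve_left (fun hn => hn hc)
  rw [hset]
  exact hE'.inter ((MeasurableSet.iInter fun i => (hWi i).compl.union (hCi i)).inter
    (MeasurableSet.iInter fun i => (hWi i).compl.union ((hCi' i).compl.union (hcnt i))))

end KN
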